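import Pool.Agent.Helper15.EP.St

set_option autoImplicit false

namespace Pool.Agent.Helper22.EP

open Polynomial Pool.Agent.Helper15.FC Pool.Agent.Helper15.EP

/-- lower bound of a binomial coefficient -/
private theorem cnb_choose (m k : ℕ) (z : ℝ) (hz : 0 ≤ z) (hm : z ≤ m) :
    z ^ k / (k.factorial : ℝ) ≤ ((m + k).choose k : ℝ) := by
  have h := Nat.pow_le_choose (α := ℝ) k (m + k)
  have h1 : m + k + 1 - k = m + 1 := by omega
  rw [h1] at h
  refine le_trans ?_ h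
  have hk : (0 : ℝ) < k.factorial := by exact_mod_cast Nat.factorial_pos k
  have h2 : z ^ k ≤ ((m + 1 : ℕ) : ℝ) ^ k := by
    apply pow_le_pow_left₀ hz
    push_cast
    linarith
  exact div_le_div_of_nonneg_right h2 hk.le

/-- the patterns with entries at least `ε n` -/
private noncomputable def cI (k n : ℕ) (ε : ℝ) : Finset (Fin (k + 1) → ℕ) :=
  (Finset.Nat.antidiagonalTuple (k + 1) n).filter (fun x => ∀ i, ε * n ≤ (x i : ℝ))

/-- the patterns with a large entry -/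
private noncomputable def cG (k n : ℕ) (ε : ℝ) : Finset (Fin (k + 1) → ℕ) :=
  (cI k n ε).filter (fun x => ∃ i, (1 / 2 + ε) * n ≤ (x i : ℝ))

private theorem cnb_I (hCN2 : StCN2) (k n : ℕ) (ε s : ℝ) (hε : 0 < ε)
    (h : ((k : ℝ) + 1) * (ε * n + 1) ≤ s * n) (hs : s ≤ 1) :
    ((1 - s) * n) ^ k / (k.factorial : ℝ) ≤ ((cI k n ε).card : ℝ) := by
  classical
  have hn : (0 : ℝ) ≤ n := Nat.cast_nonneg n
  have hεn : 0 ≤ ε * n := by positivity
  have hc : (⌈ε * n⌉₊ : ℝ) ≤ ε * n + 1 := (Nat.ceil_lt_add_one hεn).le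
  have hsum : ∑ _i : Fin (k + 1), ⌈ε * n⌉₊ = (k + 1) * ⌈ε * n⌉₊ := by simp
  have hle : (((k + 1) * ⌈ε * n⌉₊ : ℕ) : ℝ) ≤ s * n := by
    push_cast
    refine le_trans ?_ h
    exact mul_le_mul_of_nonneg_left hc (by positivity)
  have hle2 : (k + 1) * ⌈ε * n⌉₊ ≤ n := by
    have : (((k + 1) * ⌈ε * n⌉₊ : ℕ) : ℝ) ≤ n := by nlinarith
    exact_mod_cast this
  have h2 := hCN2 k n (fun _ => ⌈ε * n⌉₊) (by rw [hsum]; exact hle2)
  rw [hsum] at h2
  have h3 : cI k n ε = (Finset.Nat.antidiagonalTuple (k + 1) n).filter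
      (fun x => ∀ i, (fun _ : Fin (k + 1) => ⌈ε * n⌉₊) i ≤ x i) := by
    unfold cI
    apply Finset.filter_congr
    intro x _
    constructor
    · intro hx i
      exact Nat.ceil_le.2 (hx i)
    · intro hx i
      exact Nat.ceil_le.1 (hx i)
  rw [h3]
  have h4 : (((Finset.Nat.antidiagonalTuple (k + 1) n).filter
      (fun x => ∀ i, (fun _ : Fin (k + 1) => ⌈ε * n⌉₊) i ≤ x i)).card : ℝ) =
      ((n - (k + 1) * ⌈ε * n⌉₊ + k).choose k : ℝ) := by
    rw [← h2]
  rw [h4]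
  apply cnb_choose
  · exact mul_nonneg (by linarith) hn
  · rw [Nat.cast_sub hle2]
    linarith

private theorem cnb_G (hCN2 : StCN2) (k n : ℕ) (ε s : ℝ) (hε : 0 < ε) (hn0 : 0 < n)
    (h : ((k : ℝ) + 1) * (ε * n + 1) ≤ s * n) (hs : s ≤ 1 / 2) :
    ((k : ℝ) + 1) * (((1 / 2 - s) * n) ^ k / (k.factorial : ℝ)) ≤ ((cG k n ε).card : ℝ) := by
  classical
  have hn : (0 : ℝ) < n := by exact_mod_cast hn0
  have hεn : 0 ≤ ε * n := by positivity
  have hc : (⌈ε * n⌉₊ : ℝ) ≤ ε * n + 1 := (Nat.ceil_lt_add_one hεn).le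
  have hεn2 : 0 ≤ (1 / 2 + ε) * n := by positivity
  have hd : (⌈(1 / 2 + ε) * n⌉₊ : ℝ) ≤ (1 / 2 + ε) * n + 1 := (Nat.ceil_lt_add_one hεn2).le
  obtain ⟨A, hA⟩ : ∃ A, A = ⌈(1 / 2 + ε) * (n : ℝ)⌉₊ := ⟨_, rfl⟩
  obtain ⟨B, hB⟩ : ∃ B, B = ⌈ε * (n : ℝ)⌉₊ := ⟨_, rfl⟩
  rw [← hA] at hd
  rw [← hB] at hc
  -- the sets
  obtain ⟨S, hS⟩ : ∃ S : Fin (k + 1) → Finset (Fin (k + 1) → ℕ), S = fun i0 =>
      (Finset.Nat.antidiagonalTuple (k + 1) n).filter
        (fun x => ∀ i, (fun i : Fin (k + 1) => if i = i0 then A else B) i ≤ x i) := ⟨_, rfl⟩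
  have hsum : ∀ i0 : Fin (k + 1),
      ((∑ i, (fun i : Fin (k + 1) => if i = i0 then A else B) i : ℕ) : ℝ) =
        A + k * B := by
    intro i0
    have : ∑ i, (fun i : Fin (k + 1) => if i = i0 then A else B) i = A + k * B := by
      simp only
      rw [Finset.sum_ite]
      simp only [Finset.sum_const, smul_eq_mul]
      have h1 : (Finset.univ.filter (fun x : Fin (k + 1) => x = i0)).card = 1 := by
        rw [Finset.card_eq_one]
        exact ⟨i0, by ext; simp⟩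
      have h2 : (Finset.univ.filter (fun x : Fin (k + 1) => ¬ x = i0)).card = k := by
        have h3 := Finset.card_filter_add_card_filter_not (s := (Finset.univ : Finset (Fin (k + 1))))
          (fun x => x = i0)
        rw [h1, Finset.card_univ, Fintype.card_fin] at h3
        omega
      rw [h1, h2]
      ring
    rw [this]
    push_cast
    ring
  have hsle : ∀ i0 : Fin (k + 1),
      ((∑ i, (fun i : Fin (k + 1) => if i = i0 then A else B) i : ℕ) : ℝ) ≤ (1 / 2 + s) * n := by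
    intro i0
    rw [hsum i0]
    have h5 : (k : ℝ) * B ≤ k * (ε * n + 1) := mul_le_mul_of_nonneg_left hc (Nat.cast_nonneg k)
    nlinarith
  have hcard : ∀ i0 : Fin (k + 1), ((1 / 2 - s) * n) ^ k / (k.factorial : ℝ) ≤ ((S i0).card : ℝ) := by
    intro i0
    have hle2 : ∑ i, (fun i : Fin (k + 1) => if i = i0 then A else B) i ≤ n := by
      have h6 := hsle i0
      have : ((∑ i, (fun i : Fin (k + 1) => if i = i0 then A else B) i : ℕ) : ℝ) ≤ n := by
        nlinarith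
      exact_mod_cast this
    have h2 := hCN2 k n (fun i => if i = i0 then A else B) hle2
    have h4 : ((S i0).card : ℝ) =
        ((n - (∑ i, (fun i : Fin (k + 1) => if i = i0 then A else B) i) + k).choose k : ℝ) := by
      rw [← h2, hS]
    rw [h4]
    apply cnb_choose
    · exact mul_nonneg (by linarith) hn.le
    · rw [Nat.cast_sub hle2]
      have h6 := hsle i0
      linarith
  have hmem : ∀ i0 x, x ∈ S i0 → (∑ i, x i = n) ∧ (1 / 2 + ε) * n ≤ (x i0 : ℝ) ∧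
      ∀ i, ε * n ≤ (x i : ℝ) := by
    intro i0 x hx
    rw [hS] at hx
    simp only [Finset.mem_filter, Finset.Nat.mem_antidiagonalTuple] at hx
    obtain ⟨hx1, hx2⟩ := hx
    have h7 : (1 / 2 + ε) * n ≤ (x i0 : ℝ) := by
      have := hx2 i0
      rw [if_pos rfl, hA] at this
      exact Nat.ceil_le.1 this
    refine ⟨hx1, h7, fun i => ?_⟩
    by_cases hi : i = i0
    · rw [hi]
      have : ε * n ≤ (1 / 2 + ε) * n := by nlinarith
      linarith
    · have := hx2 i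
      rw [if_neg hi, hB] at this
      exact Nat.ceil_le.1 this
  have hdis : ∀ i0 ∈ (Finset.univ : Finset (Fin (k + 1))), ∀ j0 ∈ (Finset.univ : Finset (Fin (k + 1))),
      i0 ≠ j0 → Disjoint (S i0) (S j0) := by
    intro i0 _ j0 _ hij
    rw [Finset.disjoint_left]
    intro x hx hy
    obtain ⟨h8, h9, _⟩ := hmem i0 x hx
    obtain ⟨_, h10, _⟩ := hmem j0 x hy
    have h11 : x i0 + x j0 ≤ ∑ i, x i := by
      calc x i0 + x j0 = ∑ i ∈ ({i0, j0} : Finset (Fin (k + 1))), x i := by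
            rw [Finset.sum_pair hij]
        _ ≤ ∑ i, x i := Finset.sum_le_sum_of_subset (Finset.subset_univ _)
    rw [h8] at h11
    have h12 : (x i0 : ℝ) + x j0 ≤ n := by exact_mod_cast h11
    nlinarith
  have hsub : (Finset.univ : Finset (Fin (k + 1))).biUnion S ⊆ cG k n ε := by
    intro x hx
    rw [Finset.mem_biUnion] at hx
    obtain ⟨i0, _, hx⟩ := hx
    obtain ⟨h8, h9, h10⟩ := hmem i0 x hx
    unfold cG cI
    rw [Finset.mem_filter, Finset.mem_filter, Finset.Nat.mem_antidiagonalTuple]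
    exact ⟨⟨h8, h10⟩, i0, h9⟩
  have h13 := Finset.card_le_card hsub
  rw [Finset.card_biUnion hdis] at h13
  have h14 : ((∑ i0 : Fin (k + 1), (S i0).card : ℕ) : ℝ) ≤ ((cG k n ε).card : ℝ) := by
    exact_mod_cast h13
  refine le_trans ?_ h14
  push_cast
  calc ((k : ℝ) + 1) * (((1 / 2 - s) * n) ^ k / (k.factorial : ℝ)) =
      ∑ _i0 : Fin (k + 1), (((1 / 2 - s) * n) ^ k / (k.factorial : ℝ)) := by
        rw [Finset.sum_const, Finset.card_univ, Fintype.card_fin, nsmul_eq_mul]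
        push_cast
        ring
    _ ≤ ∑ i0 : Fin (k + 1), ((S i0).card : ℝ) := Finset.sum_le_sum (fun i0 _ => hcard i0)

open scoped Classical in
/-- the pairs -/
private theorem cnb_pairs (k l n : ℕ) (ε : ℝ) :
    (cG k n ε).card * (cI l n ε).card + ((cI k n ε).card - (cG k n ε).card) * (cG l n ε).card ≤
      ((Finset.Nat.antidiagonalTuple (k + 1) n ×ˢ Finset.Nat.antidiagonalTuple (l + 1) n).filter
        (fun p => Good ε n p.1 p.2)).card := by
  have hGI : ∀ k, cG k n ε ⊆ cI k n ε := fun k => Finset.filter_subset _ _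
  have h1 : (cG k n ε ×ˢ cI l n ε) ∪ ((cI k n ε \ cG k n ε) ×ˢ cG l n ε) ⊆
      (Finset.Nat.antidiagonalTuple (k + 1) n ×ˢ Finset.Nat.antidiagonalTuple (l + 1) n).filter
        (fun p => Good ε n p.1 p.2) := by
    intro p hp
    rw [Finset.mem_union, Finset.mem_product, Finset.mem_product, Finset.mem_sdiff] at hp
    rw [Finset.mem_filter, Finset.mem_product]
    rcases hp with ⟨h1, h2⟩ | ⟨⟨h1, _⟩, h2⟩
    · unfold cG at h1
      rw [Finset.mem_filter] at h1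
      obtain ⟨h1, h3⟩ := h1
      unfold cI at h1 h2
      rw [Finset.mem_filter] at h1 h2
      exact ⟨⟨h1.1, h2.1⟩, h1.2, h2.2, Or.inl h3⟩
    · unfold cG at h2
      rw [Finset.mem_filter] at h2
      obtain ⟨h2, h3⟩ := h2
      unfold cI at h1 h2
      rw [Finset.mem_filter] at h1 h2
      exact ⟨⟨h1.1, h2.1⟩, h1.2, h2.2, Or.inr (Or.inl h3)⟩
  have h2 := Finset.card_le_card h1
  rw [Finset.card_union_of_disjoint, Finset.card_product, Finset.card_product,
    Finset.card_sdiff_of_subset (hGI k)] at h2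
  · exact h2
  · rw [Finset.disjoint_left]
    intro p hp hq
    rw [Finset.mem_product] at hp hq
    exact (Finset.mem_sdiff.1 hq.1).2 hp.1

private theorem cnb_real (A1 B1 A2 B2 a1 b1 a2 b2 : ℝ) (hB1 : B1 ≤ A1) (hB2 : B2 ≤ A2)
    (ha1 : a1 ≤ A1) (hb1 : b1 ≤ B1) (ha2 : a2 ≤ A2) (hb2 : b2 ≤ B2) (h1 : 0 ≤ b1) (h2 : 0 ≤ b2) :
    a2 * b1 + a1 * b2 - b1 * b2 ≤ B1 * A2 + (A1 - B1) * B2 := by
  nlinarith [mul_nonneg (sub_nonneg.2 hb1) (sub_nonneg.2 hB2),
    mul_nonneg (sub_nonneg.2 (hb1.trans hB1)) (sub_nonneg.2 hb2),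
    mul_nonneg (sub_nonneg.2 ha1) h2, mul_nonneg (sub_nonneg.2 ha2) h1]

theorem hCNB (_hCN1 : StCN1) (hCN2 : StCN2) : StCNB := by
  classical
  intro k l η hη
  -- the limit function
  obtain ⟨Φ, hΦ⟩ : ∃ Φ : ℝ → ℝ, Φ = fun s => (1 - s) ^ l * (((k : ℝ) + 1) * (1 / 2 - s) ^ k) +
    (1 - s) ^ k * (((l : ℝ) + 1) * (1 / 2 - s) ^ l) -
      (((k : ℝ) + 1) * (1 / 2 - s) ^ k) * (((l : ℝ) + 1) * (1 / 2 - s) ^ l) := ⟨_, rfl⟩
  have hcont : Continuous Φ := by
    rw [hΦ]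
    fun_prop
  have h0 : Φ 0 = 1 - (1 - ((k : ℝ) + 1) / 2 ^ k) * (1 - ((l : ℝ) + 1) / 2 ^ l) := by
    rw [hΦ]
    simp only [sub_zero, one_pow, one_div, inv_pow]
    ring
  obtain ⟨δ, hδ, hδ2⟩ := Metric.continuousAt_iff.1 (hcont.continuousAt (x := 0)) η hη
  obtain ⟨s, hs⟩ : ∃ s : ℝ, s = min (δ / 2) (1 / 2) := ⟨_, rfl⟩
  have hs0 : 0 < s := by
    rw [hs]
    exact lt_min (by linarith) (by norm_num)
  have hs1 : s ≤ 1 / 2 := by rw [hs]; exact min_le_right _ _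
  have hsδ : s < δ := by
    have : s ≤ δ / 2 := by rw [hs]; exact min_le_left _ _
    linarith
  have hΦs : 1 - (1 - ((k : ℝ) + 1) / 2 ^ k) * (1 - ((l : ℝ) + 1) / 2 ^ l) - η ≤ Φ s := by
    have h3 := hδ2 (x := s) (by rw [Real.dist_eq, sub_zero, abs_of_pos hs0]; exact hsδ)
    rw [Real.dist_eq, h0] at h3
    have := (abs_lt.1 h3).1
    linarith
  obtain ⟨K, hK⟩ : ∃ K : ℝ, K = (k : ℝ) + l + 2 := ⟨_, rfl⟩
  have hk0 : (0 : ℝ) ≤ k := Nat.cast_nonneg k
  have hl0 : (0 : ℝ) ≤ l := Nat.cast_nonneg l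
  have hK0 : 0 < K := by rw [hK]; positivity
  refine ⟨s / (2 * K), ⌈2 * K / s⌉₊ + 1, by positivity, ?_⟩
  intro n hn
  have hn1 : 0 < n := by omega
  have hn2 : (0 : ℝ) < n := by exact_mod_cast hn1
  have hnK : 2 * K ≤ s * n := by
    have h4 : 2 * K / s ≤ n := by
      have h5 : 2 * K / s ≤ ⌈2 * K / s⌉₊ := Nat.le_ceil _
      have h6 : ((⌈2 * K / s⌉₊ + 1 : ℕ) : ℝ) ≤ n := by exact_mod_cast hn
      push_cast at h6
      linarith
    rw [div_le_iff₀ hs0] at h4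
    linarith
  obtain ⟨ε, hε⟩ : ∃ ε : ℝ, ε = s / (2 * K) := ⟨_, rfl⟩
  rw [← hε]
  have hε0 : 0 < ε := by rw [hε]; positivity
  have hεK : K * ε = s / 2 := by
    rw [hε]
    field_simp
  have hbd : ∀ z : ℝ, 0 ≤ z → z ≤ K → z * (ε * n + 1) ≤ s * n := by
    intro z hz0 hz
    have h7 : z * (ε * n + 1) ≤ K * (ε * n + 1) := mul_le_mul_of_nonneg_right hz (by positivity)
    have h8 : K * (ε * n + 1) = s / 2 * n + K := by
      rw [mul_add, ← mul_assoc, hεK, mul_one]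
    rw [h8] at h7
    linarith
  have hbk := hbd ((k : ℝ) + 1) (by linarith) (by rw [hK]; linarith)
  have hbl := hbd ((l : ℝ) + 1) (by linarith) (by rw [hK]; linarith)
  have ha1 := cnb_I hCN2 k n ε s hε0 hbk (by linarith)
  have ha2 := cnb_I hCN2 l n ε s hε0 hbl (by linarith)
  have hb1 := cnb_G hCN2 k n ε s hε0 hn1 hbk hs1
  have hb2 := cnb_G hCN2 l n ε s hε0 hn1 hbl hs1
  have hB1 : (cG k n ε).card ≤ (cI k n ε).card := Finset.card_le_card (Finset.filter_subset _ _)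
  have hB2 : (cG l n ε).card ≤ (cI l n ε).card := Finset.card_le_card (Finset.filter_subset _ _)
  have hp := cnb_pairs k l n ε
  have hp2 : ((cG k n ε).card : ℝ) * (cI l n ε).card +
      ((cI k n ε).card - (cG k n ε).card) * (cG l n ε).card ≤
      (((Finset.Nat.antidiagonalTuple (k + 1) n ×ˢ Finset.Nat.antidiagonalTuple (l + 1) n).filter
        (fun p => Good ε n p.1 p.2)).card : ℝ) := by
    have := hp
    rw [← Nat.cast_le (α := ℝ)] at this
    rw [Nat.cast_add, Nat.cast_mul, Nat.cast_mul, Nat.cast_sub hB1] at this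
    exact this
  have hkf : (0 : ℝ) < k.factorial := by exact_mod_cast Nat.factorial_pos k
  have hlf : (0 : ℝ) < l.factorial := by exact_mod_cast Nat.factorial_pos l
  have hhalf : 0 ≤ (1 / 2 - s) := by linarith
  have hr := cnb_real (cI k n ε).card (cG k n ε).card (cI l n ε).card (cG l n ε).card
    _ _ _ _ (by exact_mod_cast hB1) (by exact_mod_cast hB2) ha1 hb1 ha2 hb2
    (by positivity) (by positivity)
  refine le_trans ?_ (hr.trans hp2)
  have h9 : ((1 - s) * (n : ℝ)) ^ l / (l.factorial : ℝ) *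
      (((k : ℝ) + 1) * (((1 / 2 - s) * n) ^ k / (k.factorial : ℝ))) +
      ((1 - s) * (n : ℝ)) ^ k / (k.factorial : ℝ) *
      (((l : ℝ) + 1) * (((1 / 2 - s) * n) ^ l / (l.factorial : ℝ))) -
      (((k : ℝ) + 1) * (((1 / 2 - s) * n) ^ k / (k.factorial : ℝ))) *
      (((l : ℝ) + 1) * (((1 / 2 - s) * n) ^ l / (l.factorial : ℝ))) =
      Φ s * ((n : ℝ) ^ (k + l) / (k.factorial * l.factorial)) := by
    rw [hΦ]
    simp only [mul_pow]
    rw [pow_add]
    field_simp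
  rw [h9]
  apply mul_le_mul_of_nonneg_right hΦs
  positivity

end Pool.Agent.Helper22.EP
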